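import Mathlib
import Pool.Agent.H21.SpanDef

namespace Pool.Agent.Results.MP_afcd7b_gt.Triod

open Pool.Agent.H21.Span Set Metric

noncomputable def u (t : ℝ) : ℝ := max (-t) 0 - max (t - 2) 0
noncomputable def v (t : ℝ) : ℝ := max 0 (min t (2 - t))
noncomputable def w (t : ℝ) : ℝ := u t - 3 / 10 + 9 / 20 * min (max t 0) 2

theorem vals (t : ℝ) : (t ≤ 0 ∧ u t = -t ∧ v t = 0 ∧ w t = -t - 3 / 10) ∨
    (0 ≤ t ∧ t ≤ 1 ∧ u t = 0 ∧ v t = t ∧ w t = -3 / 10 + 9 / 20 * t) ∨
    (1 ≤ t ∧ t ≤ 2 ∧ u t = 0 ∧ v t = 2 - t ∧ w t = -3 / 10 + 9 / 20 * t) ∨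
    (2 ≤ t ∧ u t = 2 - t ∧ v t = 0 ∧ w t = 2 - t + 3 / 5) := by
  unfold w u v
  rcases le_total t 0 with h | h
  · refine .inl ⟨h, ?_, ?_, ?_⟩ <;> simp only [max_def, min_def] <;> split_ifs <;> linarith
  rcases le_total t 1 with h1 | h1
  · refine .inr (.inl ⟨h, h1, ?_, ?_, ?_⟩) <;> simp only [max_def, min_def] <;> split_ifs <;>
      linarith
  rcases le_total t 2 with h2 | h2
  · refine .inr (.inr (.inl ⟨h1, h2, ?_, ?_, ?_⟩)) <;> simp only [max_def, min_def] <;>
      split_ifs <;> linarith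
  · refine .inr (.inr (.inr ⟨h2, ?_, ?_, ?_⟩)) <;> simp only [max_def, min_def] <;>
      split_ifs <;> linarith

noncomputable def γ (t : Icc (-1 : ℝ) 3) : triod × triod :=
  (⟨(u t, v t), by
    have := t.2.1; have := t.2.2
    rcases vals t with ⟨a, b, c, d⟩ | ⟨a, e, b, c, d⟩ | ⟨a, e, b, c, d⟩ | ⟨a, b, c, d⟩
    · exact .inl ⟨c, by linarith, by linarith⟩
    · exact .inr ⟨b, by linarith, by linarith⟩
    · exact .inr ⟨b, by linarith, by linarith⟩
    · exact .inl ⟨c, by linarith, by linarith⟩⟩,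
    ⟨(w t, 0), by
      have := t.2.1; have := t.2.2
      rcases vals t with ⟨a, b, c, d⟩ | ⟨a, e, b, c, d⟩ | ⟨a, e, b, c, d⟩ | ⟨a, b, c, d⟩ <;>
        exact .inl ⟨rfl, by linarith, by linarith⟩⟩)

theorem γ_cont : Continuous γ := by unfold γ w u v; fun_prop

def K : Set (triod × triod) := range γ

theorem sep (s t : Icc (-1 : ℝ) 3) : 1 / 100 ≤ dist (γ s) (γ t).swap := by
  by_contra! h
  simp only [γ, Prod.dist_eq, Subtype.dist_eq, max_lt_iff, Real.dist_eq, Prod.fst_swap,
    Prod.snd_swap, abs_lt] at h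
  obtain ⟨⟨⟨h1, h2⟩, h3, h4⟩, ⟨h5, h6⟩, h7, h8⟩ := h
  rcases vals s with ⟨a, b, c, d⟩ | ⟨a, e, b, c, d⟩ | ⟨a, e, b, c, d⟩ | ⟨a, b, c, d⟩ <;>
    rcases vals t with ⟨a, b, c, d⟩ | ⟨a, e, b, c, d⟩ | ⟨a, e, b, c, d⟩ | ⟨a, b, c, d⟩ <;>
      linarith

noncomputable def f (x y : triod) : ℝ :=
  max 1 (max (2 - 100 * infDist (x, y) K) (2 - 100 * infDist (y, x) K))

theorem f_comm (x y : triod) : f x y = f y x := by rw [f, f, max_comm (2 - _)]

theorem f_le (x y : triod) : f x y ≤ 2 :=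
  max_le (by norm_num) (max_le (by linarith [infDist_nonneg (x := (x, y)) (s := K)])
    (by linarith [infDist_nonneg (x := (y, x)) (s := K)]))

theorem f_lip (x y z : triod) : f x z ≤ f y z + 200 * dist x y := by
  have h1 := infDist_le_infDist_add_dist (x := (y, z)) (y := (x, z)) (s := K)
  have h2 := infDist_le_infDist_add_dist (x := (z, y)) (y := (z, x)) (s := K)
  rw [dist_prod_same_right, dist_comm] at h1
  rw [dist_prod_same_left, dist_comm] at h2
  have a1 : 1 ≤ f y z := le_max_left _ _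
  have a2 : 2 - 100 * infDist (y, z) K ≤ f y z := le_max_of_le_right (le_max_left _ _)
  have a3 : 2 - 100 * infDist (z, y) K ≤ f y z := le_max_of_le_right (le_max_right _ _)
  have := dist_nonneg (x := x) (y := y)
  exact max_le (by linarith) (max_le (by linarith) (by linarith))

def X : Type := triod
def i (x : X) : triod := x

noncomputable instance : MetricSpace X where
  dist x y := min (200 * dist (i x) (i y)) (f (i x) (i y))
  dist_self x := by rw [dist_self, mul_zero]; exact min_eq_left (le_max_of_le_left zero_le_one)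
  dist_comm x y := by rw [dist_comm, f_comm]
  dist_triangle x y z := by
    have h1 := dist_triangle (i x) (i y) (i z)
    have h2 := f_lip (i x) (i y) (i z)
    have h3 := f_lip (i z) (i y) (i x)
    have h4 : 1 ≤ f (i x) (i y) := le_max_left _ _
    have h5 : 1 ≤ f (i y) (i z) := le_max_left _ _
    have h6 := f_le (i x) (i z)
    rw [f_comm (i z), f_comm (i y), dist_comm] at h3
    have a := min_le_left (200 * dist (i x) (i z)) (f (i x) (i z))
    have b := min_le_right (200 * dist (i x) (i z)) (f (i x) (i z))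
    rcases min_choice (200 * dist (i x) (i y)) (f (i x) (i y)) with e | e <;>
      rcases min_choice (200 * dist (i y) (i z)) (f (i y) (i z)) with e' | e' <;>
        rw [e, e'] <;> linarith
  eq_of_dist_eq_zero {x y} h := by
    have h4 : 1 ≤ f (i x) (i y) := le_max_left _ _
    rcases min_choice (200 * dist (i x) (i y)) (f (i x) (i y)) with e | e
    · exact (dist_eq_zero (x := i x) (y := i y)).mp (by linarith [e.symm.trans h])
    · exact absurd (e.symm.trans h) (by linarith)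

theorem dX (x y : X) : dist x y = min (200 * dist (i x) (i y)) (f (i x) (i y)) := rfl

noncomputable def hom : X ≃ₜ triod where
  toFun := i
  invFun x := x
  left_inv _ := rfl
  right_inv _ := rfl
  continuous_toFun := Metric.continuous_iff.mpr fun y ε hε =>
    ⟨min ε 1, by positivity, fun x h => by
      have h4 : 1 ≤ f (i x) (i y) := le_max_left _ _
      rw [dX, min_lt_iff, lt_min_iff, lt_min_iff] at h
      rcases h with h | h
      · linarith [h.1, dist_nonneg (x := i x) (y := i y)]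
      · linarith [h.2]⟩
  continuous_invFun := Metric.continuous_iff.mpr fun y ε hε =>
    ⟨ε / 200, by positivity, fun x h => (min_le_left _ _).trans_lt (by
      change 200 * dist x y < ε; linarith)⟩

theorem hK : K.Nonempty := ⟨_, ⟨0, by norm_num⟩, rfl⟩

theorem top (x : triod) : 1 / 200 ≤ infDist (x, (⟨(0, 1), by simp [triod]⟩ : triod)) K := by
  by_contra! h
  obtain ⟨_, ⟨t, rfl⟩, h⟩ := (infDist_lt_iff hK).mp h
  simp only [γ, Prod.dist_eq, Subtype.dist_eq, max_lt_iff, Real.dist_eq] at h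
  norm_num at h

theorem result : ∃ (X : Type) (_ : MetricSpace X), Nonempty (X ≃ₜ triod) ∧
    (∀ x y : X, dist x y ≤ 2) ∧ surjSpan X < surjSemiSpan X := by
  have bd : ∀ x y : X, dist x y ≤ 2 := fun x y => (min_le_right _ _).trans (f_le _ _)
  refine ⟨X, inferInstance, ⟨hom⟩, bd, lt_of_le_of_lt (b := 3 / 2) (Real.sSup_le ?_ (by norm_num))
    (lt_of_lt_of_le (b := 2) (by norm_num) (le_csSup ⟨2, ?_⟩ ⟨by norm_num, ?_⟩))⟩
  · rintro a ⟨-, Z, hZ, h1, h2, hd⟩
    by_contra! H
    have c : ∀ p ∈ Z, infDist (i p.1, i p.2) K < 1 / 200 ∨ infDist (i p.2, i p.1) K < 1 / 200 :=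
      fun p hp => by
        have := (H.trans_le (hd p hp)).trans_le (min_le_right _ _)
        rw [f, lt_max_iff, lt_max_iff] at this
        rcases this with g | g | g
        · norm_num at g
        · left; linarith
        · right; linarith
    obtain ⟨p, hp, e1⟩ : hom.symm ⟨(0, 1), by simp [triod]⟩ ∈ Prod.fst '' Z := h1 ▸ mem_univ _
    obtain ⟨q, hq, e2⟩ : hom.symm ⟨(0, 1), by simp [triod]⟩ ∈ Prod.snd '' Z := h2 ▸ mem_univ _
    have t1 : 1 / 200 ≤ infDist (i p.2, i p.1) K := e1 ▸ top _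
    have t2 : 1 / 200 ≤ infDist (i q.1, i q.2) K := e2 ▸ top _
    have hc : Continuous i := hom.continuous
    obtain ⟨r, hr, e⟩ := hZ.isPreconnected.intermediate_value₂ hp hq
      (f := fun z => infDist (i z.1, i z.2) K) (g := fun z => infDist (i z.2, i z.1) K)
      (by fun_prop) (by fun_prop) (by rcases c p hp with g | g <;> linarith)
      (by rcases c q hq with g | g <;> linarith)
    have g1 : infDist (i r.1, i r.2) K < 1 / 200 := (c r hr).elim id fun g => e ▸ g
    have g2 : infDist (i r.2, i r.1) K < 1 / 200 := e ▸ g1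
    obtain ⟨_, ⟨s, rfl⟩, g1⟩ := (infDist_lt_iff hK).mp g1
    obtain ⟨_, ⟨t, rfl⟩, g2⟩ := (infDist_lt_iff hK).mp g2
    have g3 : dist (i r.1, i r.2) (γ t).swap < 1 / 200 := by
      rw [Prod.dist_eq, max_comm] at g2; exact g2
    linarith [sep s t, dist_triangle_left (γ s) (γ t).swap (i r.1, i r.2)]
  · rintro ε ⟨-, Z, ⟨⟨p, hp⟩, -⟩, -, hd⟩
    exact (hd p hp).trans (bd _ _)
  · haveI : ConnectedSpace (Icc (-1 : ℝ) 3) :=
      isConnected_iff_connectedSpace.mp (isConnected_Icc (by norm_num))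
    refine ⟨range fun t => (hom.symm (γ t).1, hom.symm (γ t).2),
      isConnected_range ((hom.symm.continuous.comp γ_cont.fst).prodMk
        (hom.symm.continuous.comp γ_cont.snd)), .inl (eq_univ_of_forall ?_), ?_⟩
    · rintro ⟨⟨x, y⟩, h⟩
      obtain ⟨t, ht, e⟩ : ∃ t ∈ Icc (-1 : ℝ) 3, u t = x ∧ v t = y := by
        rcases h with ⟨h1, h2, h3⟩ | ⟨h1, h2, h3⟩ <;> dsimp only at h1 h2 h3
        · rcases le_total x 0 with h | h
          · refine ⟨2 - x, ⟨by linarith, by linarith⟩, ?_⟩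
            rcases vals (2 - x) with ⟨a, b, c, d⟩ | ⟨a, e, b, c, d⟩ | ⟨a, e, b, c, d⟩ |
              ⟨a, b, c, d⟩ <;> constructor <;> linarith
          · refine ⟨-x, ⟨by linarith, by linarith⟩, ?_⟩
            rcases vals (-x) with ⟨a, b, c, d⟩ | ⟨a, e, b, c, d⟩ | ⟨a, e, b, c, d⟩ |
              ⟨a, b, c, d⟩ <;> constructor <;> linarith
        · refine ⟨y, ⟨by linarith, by linarith⟩, ?_⟩
          rcases vals y with ⟨a, b, c, d⟩ | ⟨a, e, b, c, d⟩ | ⟨a, e, b, c, d⟩ |
            ⟨a, b, c, d⟩ <;> constructor <;> linarith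
      exact ⟨_, ⟨⟨t, ht⟩, rfl⟩, Subtype.ext (Prod.ext e.1 e.2)⟩
    · rintro _ ⟨t, rfl⟩
      refine le_min ?_ (le_max_of_le_right (le_max_of_le_left ?_))
      · change 2 ≤ 200 * dist (γ t).1 (γ t).2
        have := sep t t
        rw [Prod.dist_eq, Prod.fst_swap, Prod.snd_swap, dist_comm (γ t).2, max_self] at this
        linarith
      · change 2 ≤ 2 - 100 * infDist (γ t) K
        rw [infDist_zero_of_mem (s := K) ⟨t, rfl⟩, mul_zero, sub_zero]

end Pool.Agent.Results.MP_afcd7b_gt.Triod
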